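import Mathlib
import Pool.Agent.H447R2.ML.R5
import Pool.Agent.H447R2.ML.Spec

set_option autoImplicit false

/-!
# The Lenstra-Pomerance-Wagstaff constant in base two

For real `β > 0` and a prime `p` let `W β p` be the `p`-rough part (the product, with multiplicity,
of the prime factors larger than `p`) of the largest integer below `β * 2 ^ p`, the integer with
the first `p` binary digits of `β` (for `0 < β ≤ 1`, non-terminating expansion).  For
`β = 1 = 0.111...` this is the Mersenne number `2 ^ p - 1` itself.  Let `M β n` be the number of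
primes `p ≤ n` with `W β p` prime.  The base `2` is fixed.  We prove that the mean of `M β n` over
every window of amplitudes `β` is asymptotic to `(e ^ γ / log 2) log n`, and that for almost every
`β > 0` we have `liminf M β n / log n ≤ e ^ γ / log 2 ≤ limsup M β n / log n`.
-/

namespace Pool.Agent.Results.MP_9b2bac_nt.BinaryDigits

open Filter Topology MeasureTheory

/-- The product, with multiplicity, of the prime factors of `m` that are larger than `p`. -/
def roughPart (p m : ℕ) : ℕ := (m.primeFactorsList.filter (fun r => p < r)).prod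

/-- The `p`-rough part of the largest integer below `β * 2 ^ p`. -/
noncomputable def W (β : ℝ) (p : ℕ) : ℕ := roughPart p (⌈β * 2 ^ p⌉₊ - 1)

/-- The number of primes `p ≤ n` for which `W β p` is prime. -/
noncomputable def M (β : ℝ) (n : ℕ) : ℕ :=
  ((Finset.range (n + 1)).filter (fun p => p.Prime ∧ (W β p).Prime)).card

/-- The counting function at `β = 1` is that of the Mersenne primes; its mean over the amplitudes
and the almost everywhere statement, with the base `2` fixed. -/
theorem result :
    (∀ n : ℕ, M 1 n = ((Finset.range (n + 1)).filter (fun p => p.Prime ∧ (2 ^ p - 1).Prime)).card) ∧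
    (∀ s t : ℝ, s < t → Tendsto (fun n : ℕ =>
        (∫ u in s..t, (M (Real.exp u) n : ℝ)) / ((t - s) * Real.log n)) atTop
        (𝓝 (Real.exp Real.eulerMascheroniConstant / Real.log 2))) ∧
    (∀ᵐ β : ℝ, 0 < β →
      (∀ c : ℝ, c < Real.exp Real.eulerMascheroniConstant / Real.log 2 →
        ∃ᶠ n : ℕ in atTop, c * Real.log n < M β n) ∧
      (∀ c : ℝ, Real.exp Real.eulerMascheroniConstant / Real.log 2 < c →
        ∃ᶠ n : ℕ in atTop, (M β n : ℝ) < c * Real.log n)) := by
  have key := Pool.Agent.H447R2.ML.shift_ceil (α := 2) (κ := 1) (C := 1) (g := fun _ => 0)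
    (by norm_num) (by norm_num) (by norm_num) (by intro p; simp)
  have hM : ∀ (x : ℝ) (n : ℕ),
      Pool.Agent.H447R2.ML.cc (fun p x => x * 2 ^ p + 0) x n = M x n := by
    intro x n
    unfold Pool.Agent.H447R2.ML.cc M W
    simp only [add_zero]
    rfl
  simp only [hM] at key
  refine ⟨fun n => ?_, key⟩
  unfold M
  congr 1
  refine Finset.filter_congr fun p _ => and_congr_right fun hp => ?_
  have e : W 1 p = 2 ^ p - 1 := by
    have hpd : ¬ (p : ℤ) ∣ (2 : ℤ) - 1 := by
      intro h
      have h1 : (p : ℤ) ∣ 1 := by simpa using h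
      have h2 : p ∣ 1 := by exact_mod_cast h1
      exact hp.one_lt.ne' (Nat.dvd_one.1 h2)
    have h1p : 1 ≤ 2 ^ p := Nat.one_le_two_pow
    have h := Pool.Agent.H447R2.ML.rough_quot (a := 2) (b := 1) (by norm_num) (by norm_num)
      (by norm_num) hp hpd (x := ((2 ^ p - 1 : ℕ) : ℝ)) (by push_cast [Nat.cast_sub h1p]; ring)
    rw [Nat.floor_natCast] at h
    have hgeom : (∑ i ∈ Finset.range p, (2 : ℤ) ^ i * 1 ^ (p - 1 - i)) * (2 - 1) =
        (2 : ℤ) ^ p - 1 ^ p := (Commute.all (2 : ℤ) 1).geom_sum₂_mul p
    have h4 : W 1 p = Pool.Agent.H305R2.roughPart p (2 ^ p - 1) := by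
      have h6 : ⌈(1 : ℝ) * 2 ^ p⌉₊ = 2 ^ p := by
        rw [one_mul]
        exact_mod_cast Nat.ceil_natCast (R := ℝ) (2 ^ p)
      unfold W
      rw [h6]
      rfl
    rw [← h4, ← mul_one (∑ i ∈ Finset.range p, (2 : ℤ) ^ i * 1 ^ (p - 1 - i)),
      show (1 : ℤ) = 2 - 1 by norm_num] at h
    have h5 : W 1 p + 1 = 2 ^ p := by
      have : ((W 1 p + 1 : ℕ) : ℤ) = ((2 ^ p : ℕ) : ℤ) := by
        push_cast
        norm_num at h hgeom ⊢
        linarith
      exact_mod_cast this
    omega
  rw [e]

end Pool.Agent.Results.MP_9b2bac_nt.BinaryDigits
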