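import Mathlib
import Pool.Agent.H447R2.ML.Law
import Pool.Agent.H447R2.ML.Spec

set_option autoImplicit false

/-!
# The Wagstaff law for Mersenne numbers in the mean over real bases near two

For a real base `x > 1` and a prime `p` let `W x p` be the `p`-rough part (the product, with
multiplicity, of the prime factors larger than `p`) of the integer part of `x ^ p - 1`.  For
`x = 2` this is the Mersenne number `2 ^ p - 1` itself.  We prove that in windows of bases
shrinking to any base (for example to two), of width much larger than `1 / p`, the proportion of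
the `x` with `W x p` prime is asymptotic to `e ^ γ log p / (p log x)`, and that the mean of the
number `M x n` of primes `p ≤ n` with `W x p` prime, over windows shrinking to the base two of
width much larger than `1 / log n`, divided by `log n`, tends to `e ^ γ / log 2`.
-/

namespace Pool.Agent.Results.MP_9b2bac_nt.LocalBases

open Filter Topology MeasureTheory

open Pool.Agent.H447R2.ML (Good LL gg fl)

/-- The product, with multiplicity, of the prime factors of `m` that are larger than `p`. -/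
def roughPart (p m : ℕ) : ℕ := (m.primeFactorsList.filter (fun r => p < r)).prod

/-- The `p`-rough part of the integer part of `x ^ p - 1`. -/
noncomputable def W (x : ℝ) (p : ℕ) : ℕ := roughPart p ⌊x ^ p - 1⌋₊

/-- The number of primes `p ≤ n` for which `W x p` is prime. -/
noncomputable def M (x : ℝ) (n : ℕ) : ℕ :=
  ((Finset.range (n + 1)).filter (fun p => p.Prime ∧ (W x p).Prime)).card

lemma W_two (p : ℕ) (hp : p.Prime) : W 2 p = 2 ^ p - 1 := by
  have hpd : ¬ (p : ℤ) ∣ (2 : ℤ) - 1 := by
    intro h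
    have h1 : (p : ℤ) ∣ 1 := by simpa using h
    have h2 : p ∣ 1 := by exact_mod_cast h1
    exact hp.one_lt.ne' (Nat.dvd_one.1 h2)
  have h := Pool.Agent.H447R2.ML.rough_quot (a := 2) (b := 1) (by norm_num) (by norm_num)
    (by norm_num) hp hpd (x := (2 : ℝ) ^ p - 1) (by push_cast; ring)
  have h4 : ((W 2 p : ℕ) : ℤ) = ∑ i ∈ Finset.range p, (2 : ℤ) ^ i * 1 ^ (p - 1 - i) := h
  have hgeom : (∑ i ∈ Finset.range p, (2 : ℤ) ^ i * 1 ^ (p - 1 - i)) * (2 - 1) =
      (2 : ℤ) ^ p - 1 ^ p := (Commute.all (2 : ℤ) 1).geom_sum₂_mul p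
  rw [← h4, one_pow] at hgeom
  have h5 : W 2 p + 1 = 2 ^ p := by
    have : ((W 2 p + 1 : ℕ) : ℤ) = ((2 ^ p : ℕ) : ℤ) := by
      push_cast
      linarith
    exact_mod_cast this
  omega

lemma M_two (n : ℕ) :
    M 2 n = ((Finset.range (n + 1)).filter (fun p => p.Prime ∧ (2 ^ p - 1).Prime)).card := by
  unfold M
  congr 1
  refine Finset.filter_congr fun p _ => ?_
  constructor
  · rintro ⟨h1, h2⟩
    exact ⟨h1, by rwa [W_two p h1] at h2⟩
  · rintro ⟨h1, h2⟩
    exact ⟨h1, by rwa [W_two p h1]⟩

/-- the constant perturbation -/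
def neg' : ℕ → ℝ := fun _ => -1

lemma good : Good (fl neg') 0 := by
  refine Pool.Agent.H447R2.ML.good_fl (C := 1) le_rfl one_pos fun p => ?_
  simp [neg']

lemma log_nat_tendsto : Tendsto (fun p : ℕ => Real.log (p : ℝ)) atTop atTop :=
  Real.tendsto_log_atTop.comp tendsto_natCast_atTop_atTop

lemma scale {g : ℝ → ℝ} {u v : ℝ} (huv : u ≤ v) {p : ℕ} (hp : 0 < p) (b : ℝ) :
    ∫ τ in Set.Ioc u v, g (p * τ + b) = (∫ y in Set.Ioc (p * u + b) (p * v + b), g y) / p := by
  have hp0 : (0 : ℝ) < p := by exact_mod_cast hp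
  have h1 : (p : ℝ) * u + b ≤ p * v + b := by
    have := mul_le_mul_of_nonneg_left huv hp0.le
    linarith
  rw [← intervalIntegral.integral_of_le huv, ← intervalIntegral.integral_of_le h1,
    intervalIntegral.integral_comp_mul_add (fun y => g y) hp0.ne' b, smul_eq_mul]
  field_simp

/-- The mean law over windows of the logarithmic base. -/
lemma mean_gen {f : ℕ → ℝ → ℝ} (hf : Good f 0) {s t : ℝ} (hs : 0 < s) (hst : s ≤ t)
    {u v : ℕ → ℝ} (hu : Tendsto u atTop (𝓝 s)) (hv : Tendsto v atTop (𝓝 t))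
    (huv : ∀ᶠ p in atTop, u p < v p)
    (hw : Tendsto (fun p : ℕ => (p : ℝ) * (v p - u p)) atTop atTop) (b : ℝ) :
    Tendsto (fun p : ℕ => (∫ τ in Set.Ioc (u p) (v p), f p (p * τ + b)) / (v p - u p) *
      (p / Real.log p)) atTop
      (𝓝 (∫ θ in Set.Ioc (0 : ℝ) 1, Real.exp Real.eulerMascheroniConstant /
        (s + θ * (t - s)))) := by
  set G := Real.exp Real.eulerMascheroniConstant with hG
  obtain ⟨K, hK, hev⟩ := Pool.Agent.H447R2.ML.bounds hf (c := s / 4) (by linarith)
  have hlog1 : ∀ᶠ p : ℕ in atTop, 1 ≤ Real.log p := log_nat_tendsto.eventually_ge_atTop 1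
  have hu2 : ∀ᶠ p in atTop, s / 2 < u p := hu.eventually_const_lt (by linarith)
  have hlarge : ∀ᶠ p : ℕ in atTop, (4 / s) * (1 + |b|) ≤ p :=
    tendsto_natCast_atTop_atTop.eventually_ge_atTop _
  -- for large `p` the windows lie in the range of the bounds
  have hstart : ∀ᶠ p : ℕ in atTop, s / 4 * p + 1 ≤ p * u p + b := by
    filter_upwards [hu2, hlarge, eventually_gt_atTop 0] with p h1 h2 h3
    have h3' : (0 : ℝ) < p := by exact_mod_cast h3
    have h4 : (1 + |b|) ≤ s / 4 * p := by
      rw [div_mul_eq_mul_div, div_le_iff₀ hs] at h2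
      linarith
    have h5 := neg_abs_le b
    nlinarith
  -- dominated convergence
  have hdom : Tendsto (fun p : ℕ => ∫ θ in Set.Ioc (0 : ℝ) 1,
      LL f p (p * (u p + θ * (v p - u p)) + b) * (p / Real.log p)) atTop
      (𝓝 (∫ θ in Set.Ioc (0 : ℝ) 1, G / (s + θ * (t - s)))) := by
    refine tendsto_integral_filter_of_dominated_convergence (fun _ => K) ?_ ?_ ?_ ?_
    · exact Eventually.of_forall fun p =>
        (((Pool.Agent.H447R2.ML.LL_cont hf p).comp (by fun_prop)).mul
          continuous_const).aestronglyMeasurable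
    · filter_upwards [hev, hlog1, eventually_gt_atTop 0, hstart, huv] with p hp hl hp0 hst' huv'
      have hp0' : (0 : ℝ) < p := by exact_mod_cast hp0
      refine ae_restrict_of_forall_mem measurableSet_Ioc fun θ hθ => ?_
      have h0 : p * u p + b ≤ p * (u p + θ * (v p - u p)) + b := by
        have : 0 ≤ θ * (v p - u p) := mul_nonneg hθ.1.le (by linarith)
        nlinarith
      have h1 := hp.1 (p * (u p + θ * (v p - u p)) + b) (by linarith)
      have h2 := Pool.Agent.H447R2.ML.LL_nonneg hf p (p * (u p + θ * (v p - u p)) + b)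
      have h3 : 0 ≤ (p : ℝ) / Real.log p := by positivity
      rw [Real.norm_eq_abs, abs_of_nonneg (mul_nonneg h2 h3)]
      calc LL f p (p * (u p + θ * (v p - u p)) + b) * (p / Real.log p) ≤
          (K * (Real.log p / p)) * (p / Real.log p) := mul_le_mul_of_nonneg_right h1 h3
        _ = K := by field_simp
    · exact integrableOn_const (by simp)
    · refine ae_restrict_of_forall_mem measurableSet_Ioc fun θ hθ => ?_
      have ha0 : 0 < s + θ * (t - s) := by
        have : 0 ≤ θ * (t - s) := mul_nonneg hθ.1.le (by linarith)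
        linarith
      refine hf.asymp _ ha0 (fun p : ℕ => p * (u p + θ * (v p - u p)) + b) ?_
      have h1 : Tendsto (fun p : ℕ => (u p + θ * (v p - u p)) + b / (p : ℝ)) atTop
          (𝓝 ((s + θ * (t - s)) + 0)) :=
        (hu.add ((hv.sub hu).const_mul θ)).add (tendsto_const_div_atTop_nhds_zero_nat b)
      rw [add_zero] at h1
      refine h1.congr' ?_
      filter_upwards [eventually_gt_atTop 0] with p hp
      have hp0' : (0 : ℝ) < p := by exact_mod_cast hp
      field_simp
  -- error term
  have herr : Tendsto (fun p : ℕ => (∫ y in Set.Ioc (p * u p + b) (p * v p + b), gg f p y) /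
      (p * (v p - u p)) * (p / Real.log p)) atTop (𝓝 0) := by
    have h0 : Tendsto (fun p : ℕ => K / ((p : ℝ) * (v p - u p))) atTop (𝓝 0) :=
      hw.const_div_atTop K
    refine squeeze_zero_norm' ?_ h0
    filter_upwards [hev, hlog1, eventually_gt_atTop 0, hstart, huv] with p hp hl hp0 hst' huv'
    have hp0' : (0 : ℝ) < p := by exact_mod_cast hp0
    have hd : 0 < v p - u p := by linarith
    have hle : (p : ℝ) * u p + b ≤ p * v p + b := by nlinarith
    have h1 := hp.2.2.1 _ _ hst' hle
    have hl' : 0 < Real.log p := by linarith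
    have hr : 0 ≤ (p : ℝ) / Real.log p := by positivity
    rw [Real.norm_eq_abs, abs_mul, abs_div, abs_of_nonneg hr,
      abs_of_pos (show 0 < (p : ℝ) * (v p - u p) by positivity)]
    calc |∫ y in Set.Ioc (p * u p + b) (p * v p + b), gg f p y| / (p * (v p - u p)) *
          (p / Real.log p) ≤ (K * (Real.log p / p)) / (p * (v p - u p)) * (p / Real.log p) := by
          gcongr
      _ = K / (p * (v p - u p)) := by field_simp
  have hsum := hdom.add herr
  rw [add_zero] at hsum
  refine hsum.congr' ?_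
  filter_upwards [hlog1, eventually_gt_atTop 0, huv] with p hl hp0 huv'
  have hp0' : (0 : ℝ) < p := by exact_mod_cast hp0
  have hd : 0 < v p - u p := by linarith
  have e1 : ∫ y in Set.Ioc (p * u p + b) (p * v p + b), gg f p y =
      (∫ y in Set.Ioc (p * u p + b) (p * v p + b), f p y) -
      ∫ y in Set.Ioc (p * u p + b) (p * v p + b), LL f p y :=
    integral_sub (Pool.Agent.H447R2.ML.integrableOn_ff hf p _ _)
      (Pool.Agent.H447R2.ML.integrableOn_LL hf p _ _)
  have e2 : ∫ y in Set.Ioc (p * u p + b) (p * v p + b), LL f p y =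
      (p * (v p - u p)) * ∫ θ in Set.Ioc (0 : ℝ) 1, LL f p (p * (u p + θ * (v p - u p)) + b) := by
    have hle : (p : ℝ) * u p + b ≤ p * v p + b := by nlinarith
    have hc : (p : ℝ) * (v p - u p) ≠ 0 := by positivity
    have h3 := intervalIntegral.integral_comp_mul_add (a := 0) (b := 1) (fun y => LL f p y) hc
      (p * u p + b)
    have h4 : (fun θ : ℝ => LL f p (p * (u p + θ * (v p - u p)) + b)) =
        fun θ : ℝ => LL f p (p * (v p - u p) * θ + (p * u p + b)) := by
      funext θ
      congr 1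
      ring
    rw [h4, ← intervalIntegral.integral_of_le (zero_le_one), h3,
      ← intervalIntegral.integral_of_le hle, smul_eq_mul]
    have e5 : (p : ℝ) * (v p - u p) * 0 + (p * u p + b) = p * u p + b := by ring
    have e6 : (p : ℝ) * (v p - u p) * 1 + (p * u p + b) = p * v p + b := by ring
    rw [e5, e6]
    field_simp
  rw [e1, e2, scale huv'.le hp0, integral_mul_const]
  have hl' : Real.log p ≠ 0 := by
    have : 0 < Real.log p := by linarith
    exact this.ne'
  field_simp
  ring_nf

/-- the indicator of the logarithmic bases with a prime `p`-th term -/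
noncomputable def ind (p : ℕ) (τ : ℝ) : ℝ := fl neg' p (p * τ + 0)

lemma ind_eq (p : ℕ) (τ : ℝ) : ind p τ = if (W (Real.exp τ) p).Prime then 1 else 0 := by
  have e : Real.exp (p * τ + 0) = Real.exp τ ^ p := by
    rw [add_zero, Real.exp_nat_mul]
  unfold ind fl W
  rw [e, neg', ← sub_eq_add_neg]
  rfl

lemma ind_nonneg (p : ℕ) (τ : ℝ) : 0 ≤ ind p τ := Pool.Agent.H447R2.ML.fl_nonneg _ _ _

lemma ind_le_one (p : ℕ) (τ : ℝ) : ind p τ ≤ 1 := Pool.Agent.H447R2.ML.fl_le_one _ _ _

lemma measurable_ind (p : ℕ) : Measurable (ind p) :=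
  (Pool.Agent.H447R2.ML.measurable_fl neg' p).comp ((measurable_const_mul _).add_const _)

lemma integrableOn_ind (p : ℕ) (u v : ℝ) : IntegrableOn (ind p) (Set.Ioc u v) := by
  refine Measure.integrableOn_of_bounded (M := 1) (by simp)
    (measurable_ind p).aestronglyMeasurable ?_
  exact Eventually.of_forall fun t => by
    rw [Real.norm_eq_abs, abs_of_nonneg (ind_nonneg _ _)]
    exact ind_le_one _ _

/-- the exact measure of the set of bases as an integral -/
lemma volume_A (u v : ℝ) (p : ℕ) :
    volume {τ : ℝ | τ ∈ Set.Ioc u v ∧ (W (Real.exp τ) p).Prime} =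
      ENNReal.ofReal (∫ τ in Set.Ioc u v, ind p τ) := by
  have hA : {τ : ℝ | τ ∈ Set.Ioc u v ∧ (W (Real.exp τ) p).Prime} =
      {τ | ind p τ = 1} ∩ Set.Ioc u v := by
    ext τ
    simp only [Set.mem_ofPred_eq, Set.mem_inter_iff, ind_eq]
    constructor
    · rintro ⟨h1, h2⟩
      exact ⟨by rw [if_pos h2], h1⟩
    · rintro ⟨h1, h2⟩
      refine ⟨h2, ?_⟩
      by_contra hc
      rw [if_neg hc] at h1
      exact zero_ne_one h1
  rw [ofReal_integral_eq_lintegral_ofReal (integrableOn_ind p u v)
    (Eventually.of_forall fun b => ind_nonneg _ _), hA]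
  have hms : MeasurableSet {τ | ind p τ = 1} := (measurable_ind p) (measurableSet_singleton 1)
  rw [← Measure.restrict_apply hms, ← lintegral_indicator_one hms]
  refine lintegral_congr fun b => ?_
  by_cases hb : b ∈ {τ | ind p τ = 1}
  · rw [Set.indicator_of_mem hb]
    have : ind p b = 1 := hb
    rw [this]
    simp
  · rw [Set.indicator_of_notMem hb]
    have h2 : ind p b ≠ 1 := hb
    have h3 : ind p b = 0 := by
      rw [ind_eq] at h2 ⊢
      split_ifs at h2 ⊢ with h
      · exact absurd rfl h2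
      · rfl
    rw [h3]
    simp

/-- the local Wagstaff law -/
lemma local_law {c : ℝ} (hc : 0 < c) {u v : ℕ → ℝ} (hu : Tendsto u atTop (𝓝 c))
    (hv : Tendsto v atTop (𝓝 c)) (huv : ∀ p, u p < v p)
    (hw : Tendsto (fun p : ℕ => (p : ℝ) * (v p - u p)) atTop atTop) :
    Tendsto (fun p : ℕ =>
      (volume {τ : ℝ | τ ∈ Set.Ioc (u p) (v p) ∧ (W (Real.exp τ) p).Prime}).toReal /
        (v p - u p) * (p / Real.log p)) atTop
      (𝓝 (Real.exp Real.eulerMascheroniConstant / c)) := by
  have h1 := mean_gen good hc le_rfl hu hv (Eventually.of_forall huv) hw 0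
  have e : (∫ θ in Set.Ioc (0 : ℝ) 1, Real.exp Real.eulerMascheroniConstant /
        (c + θ * (c - c))) = Real.exp Real.eulerMascheroniConstant / c := by
    simp only [sub_self, mul_zero, add_zero]
    rw [setIntegral_const, Real.volume_real_Ioc_of_le zero_le_one]
    simp only [sub_zero, one_smul]
  rw [e] at h1
  refine h1.congr fun p => ?_
  rw [volume_A, ENNReal.toReal_ofReal
    (setIntegral_nonneg measurableSet_Ioc fun t _ => ind_nonneg _ _)]
  rfl

/-- the mean of the counting function as a sum over primes -/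
lemma mean_M {u v : ℝ} (huv : u ≤ v) (n : ℕ) :
    ∫ τ in u..v, (M (Real.exp τ) n : ℝ) =
      ∑ p ∈ (Finset.Icc 1 n).filter Nat.Prime, ∫ τ in Set.Ioc u v, ind p τ := by
  have h1 : ∀ τ : ℝ, (M (Real.exp τ) n : ℝ) =
      ∑ p ∈ (Finset.Icc 1 n).filter Nat.Prime, ind p τ := by
    intro τ
    rw [← Pool.Agent.H305R2.sum_range_if (fun p => ind p τ) n]
    unfold M
    rw [Finset.card_filter]
    push_cast
    refine Finset.sum_congr rfl fun p _ => ?_
    rw [ind_eq]
    by_cases hp : p.Prime <;> by_cases hW : (W (Real.exp τ) p).Prime <;> simp [hp, hW]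
  rw [intervalIntegral.integral_of_le huv]
  simp only [h1]
  exact integral_finsetSum _ fun p _ => integrableOn_ind p u v

/-- fixed windows -/
lemma mean_fixed {s t : ℝ} (hs : 0 < s) (hst : s < t) :
    Tendsto (fun n : ℕ => (∫ τ in s..t, (M (Real.exp τ) n : ℝ)) / Real.log n) atTop
      (𝓝 (Real.exp Real.eulerMascheroniConstant * Real.log (t / s))) := by
  have hd : 0 < t - s := by linarith
  have h1 := mean_gen good hs hst.le (u := fun _ => s) (v := fun _ => t) tendsto_const_nhds
    tendsto_const_nhds (Eventually.of_forall fun _ => hst)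
    (tendsto_natCast_atTop_atTop.atTop_mul_const hd) 0
  have h2 := h1.const_mul (t - s)
  have e : (t - s) * (∫ θ in Set.Ioc (0 : ℝ) 1, Real.exp Real.eulerMascheroniConstant /
        (s + θ * (t - s))) =
      Real.exp Real.eulerMascheroniConstant * Real.log (t / s) := by
    have h3 := intervalIntegral.integral_comp_mul_add (a := 0) (b := 1)
      (fun y => Real.exp Real.eulerMascheroniConstant / y) hd.ne' s
    have h4 : (fun θ : ℝ => Real.exp Real.eulerMascheroniConstant / (s + θ * (t - s))) =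
        fun θ : ℝ => Real.exp Real.eulerMascheroniConstant / ((t - s) * θ + s) := by
      funext θ
      congr 1
      ring
    rw [h4, ← intervalIntegral.integral_of_le (zero_le_one), h3, smul_eq_mul]
    have e5 : (t - s) * 0 + s = s := by ring
    have e6 : (t - s) * 1 + s = t := by ring
    rw [e5, e6]
    simp only [div_eq_mul_inv]
    rw [intervalIntegral.integral_const_mul, integral_inv_of_pos hs (hs.trans hst)]
    field_simp
  rw [e] at h2
  have h3 : Tendsto (fun p : ℕ => (∫ τ in Set.Ioc s t, ind p τ) * (p / Real.log p)) atTop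
      (𝓝 (Real.exp Real.eulerMascheroniConstant * Real.log (t / s))) := by
    refine h2.congr fun p => ?_
    unfold ind
    field_simp
  refine (Pool.Agent.H305R2.cesaro _ _ h3).congr fun n => ?_
  rw [mean_M hst.le]

/-- uniformity in the window -/
lemma unif {f : ℕ → ℝ → ℝ} (hf : Good f 0) {c : ℝ} (hc : 0 < c) {u v : ℕ → ℝ}
    (hu : Tendsto u atTop (𝓝 c)) (hv : Tendsto v atTop (𝓝 c)) {ε : ℝ} (hε : 0 < ε) :
    ∀ᶠ p : ℕ in atTop, ∀ n : ℕ, p ≤ n → ∀ y ∈ Set.Ioc (p * u n) (p * v n),
      |LL f p y * (p / Real.log p) - Real.exp Real.eulerMascheroniConstant / c| ≤ ε := by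
  by_contra hno
  rw [not_eventually] at hno
  set P : ℕ → ℝ → Prop := fun p y => ∃ n : ℕ, p ≤ n ∧ y ∈ Set.Ioc (p * u n) (p * v n) ∧
    ε < |LL f p y * (p / Real.log p) - Real.exp Real.eulerMascheroniConstant / c| with hP
  classical
  set Y : ℕ → ℝ := fun p => if h : ∃ y, P p y then h.choose else c * p with hY
  have hYlim : Tendsto (fun p : ℕ => Y p / p) atTop (𝓝 c) := by
    rw [Metric.tendsto_atTop]
    intro δ hδ
    obtain ⟨N1, hN1⟩ := (Metric.tendsto_atTop.1 hu) δ hδ
    obtain ⟨N2, hN2⟩ := (Metric.tendsto_atTop.1 hv) δ hδ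
    refine ⟨max (max N1 N2) 1, fun p hp => ?_⟩
    have hp1 : N1 ≤ p := (le_max_left _ _).trans ((le_max_left _ _).trans hp)
    have hp2 : N2 ≤ p := (le_max_right _ _).trans ((le_max_left _ _).trans hp)
    have hp3 : 1 ≤ p := (le_max_right _ _).trans hp
    have hp0 : (0 : ℝ) < p := by exact_mod_cast hp3
    by_cases h : ∃ y, P p y
    · have e : Y p = h.choose := by simp only [hY]; rw [dif_pos h]
      obtain ⟨n, hn, hy, -⟩ := h.choose_spec
      rw [e]
      have a1 := hN1 n (hp1.trans hn)
      have a2 := hN2 n (hp2.trans hn)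
      rw [Real.dist_eq, abs_lt] at a1 a2 ⊢
      have b1 : u n < h.choose / p := by
        rw [lt_div_iff₀ hp0]
        linarith [hy.1]
      have b2 : h.choose / p ≤ v n := by
        rw [div_le_iff₀ hp0]
        linarith [hy.2]
      constructor
      · linarith [a1.1]
      · linarith [a2.2]
    · have e : Y p = c * p := by simp only [hY]; rw [dif_neg h]
      rw [e, mul_div_assoc, div_self hp0.ne', mul_one, dist_self]
      exact hδ
  have h1 := hf.asymp c hc Y hYlim
  have h2 := (Metric.tendsto_atTop.1 h1) ε hε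
  obtain ⟨N, hN⟩ := h2
  obtain ⟨p, hp, hbad⟩ := (hno.and_eventually (eventually_ge_atTop N)).exists
  · have hex : ∃ y, P p y := by
      push Not at hp
      obtain ⟨n, hn, y, hy, hlt⟩ := hp
      exact ⟨y, n, hn, hy, hlt⟩
    have e : Y p = hex.choose := by simp only [hY]; rw [dif_pos hex]
    obtain ⟨n, hn, hy, hlt⟩ := hex.choose_spec
    have h3 := hN p hbad
    rw [Real.dist_eq, e] at h3
    exact absurd h3 (not_lt.2 hlt.le)

/-- the first moment of one prime, uniformly in the window -/
lemma one_prime {c : ℝ} (hc : 0 < c) {u v : ℕ → ℝ}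
    (hu : Tendsto u atTop (𝓝 c)) (hv : Tendsto v atTop (𝓝 c)) (huv : ∀ n, u n < v n) :
    ∃ K : ℝ, 0 < K ∧ ∀ ε : ℝ, 0 < ε → ∀ᶠ p : ℕ in atTop, ∀ n : ℕ, p ≤ n →
      |(∫ τ in Set.Ioc (u n) (v n), ind p τ) -
        (v n - u n) * (Real.exp Real.eulerMascheroniConstant / c) * (Real.log p / p)| ≤
      ε * (v n - u n) * (Real.log p / p) + K * (Real.log p / p ^ 2) := by
  set G := Real.exp Real.eulerMascheroniConstant with hG
  obtain ⟨K, hK, hev⟩ := Pool.Agent.H447R2.ML.bounds good (c := c / 4) (by linarith)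
  refine ⟨K, hK, fun ε hε => ?_⟩
  have hlog1 : ∀ᶠ p : ℕ in atTop, 1 ≤ Real.log p := log_nat_tendsto.eventually_ge_atTop 1
  have hlarge : ∀ᶠ p : ℕ in atTop, 4 / c ≤ p :=
    tendsto_natCast_atTop_atTop.eventually_ge_atTop _
  have hu2 : ∀ᶠ p : ℕ in atTop, ∀ n : ℕ, p ≤ n → c / 2 < u n := by
    obtain ⟨N, hN⟩ := eventually_atTop.1 (hu.eventually_const_lt (show c / 2 < c by linarith))
    filter_upwards [eventually_ge_atTop N] with p hp n hn
    exact hN n (hp.trans hn)
  filter_upwards [hev, hlog1, hlarge, hu2, unif good hc hu hv hε] with p hp hl hpl hun hU n hn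
  have hc4 : (0 : ℝ) < 4 / c := by positivity
  have hp0 : (0 : ℝ) < p := by linarith
  have hp0' : 0 < p := by exact_mod_cast hp0
  have hl0 : 0 < Real.log p := by linarith
  have hd : 0 < v n - u n := by linarith [huv n]
  have hstart : c / 4 * p + 1 ≤ p * u n := by
    have h1 := hun n hn
    have h2 : 1 ≤ c / 4 * p := by
      rw [div_le_iff₀ hc] at hpl
      linarith
    nlinarith
  have hle : (p : ℝ) * u n ≤ p * v n := by nlinarith
  set w := Real.log p / p with hw
  have hw0 : 0 < w := by positivity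
  -- scale
  have e0 : ∫ τ in Set.Ioc (u n) (v n), ind p τ =
      (∫ y in Set.Ioc (p * u n) (p * v n), fl neg' p y) / p := by
    have := scale (g := fl neg' p) (huv n).le hp0' 0
    simp only [add_zero] at this
    unfold ind
    simp only [add_zero]
    exact this
  have e1 : ∫ y in Set.Ioc (p * u n) (p * v n), gg (fl neg') p y =
      (∫ y in Set.Ioc (p * u n) (p * v n), fl neg' p y) -
      ∫ y in Set.Ioc (p * u n) (p * v n), LL (fl neg') p y :=
    integral_sub (Pool.Agent.H447R2.ML.integrableOn_ff good p _ _)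
      (Pool.Agent.H447R2.ML.integrableOn_LL good p _ _)
  have h3 := hp.2.2.1 _ _ hstart hle
  -- the local means
  have hLLb : ∀ y ∈ Set.Ioc ((p : ℝ) * u n) (p * v n), |LL (fl neg') p y - G / c * w| ≤ ε * w := by
    intro y hy
    have h4 := hU n hn y hy
    have h5 : LL (fl neg') p y - G / c * w =
        (LL (fl neg') p y * (p / Real.log p) - G / c) * w := by
      rw [hw]
      field_simp
    rw [h5, abs_mul, abs_of_pos hw0]
    exact mul_le_mul_of_nonneg_right h4 hw0.le
  have h6 : |(∫ y in Set.Ioc (p * u n) (p * v n), LL (fl neg') p y) -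
      (p * (v n - u n)) * (G / c * w)| ≤ (ε * w) * (p * (v n - u n)) := by
    have e2 : (∫ y in Set.Ioc (p * u n) (p * v n), LL (fl neg') p y) -
        (p * (v n - u n)) * (G / c * w) =
        ∫ y in Set.Ioc (p * u n) (p * v n), (LL (fl neg') p y - G / c * w) := by
      rw [integral_sub (Pool.Agent.H447R2.ML.integrableOn_LL good p _ _)
        (integrableOn_const (by simp)), setIntegral_const, smul_eq_mul,
        Real.volume_real_Ioc_of_le hle]
      ring
    rw [e2, ← Real.norm_eq_abs]
    have e9 := norm_setIntegral_le_of_norm_le_const (μ := volume) (C := ε * w)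
      (s := Set.Ioc ((p : ℝ) * u n) (p * v n)) (f := fun y => LL (fl neg') p y - G / c * w)
      (by simp) (fun y hy => by
        rw [Real.norm_eq_abs]
        exact hLLb y hy)
    refine e9.trans ?_
    rw [Real.volume_real_Ioc_of_le hle]
    exact le_of_eq (by ring)
  rw [e0]
  have e7 : (∫ y in Set.Ioc (p * u n) (p * v n), fl neg' p y) / p -
      (v n - u n) * (G / c) * w =
      (((∫ y in Set.Ioc (p * u n) (p * v n), LL (fl neg') p y) -
        (p * (v n - u n)) * (G / c * w)) +
        ∫ y in Set.Ioc (p * u n) (p * v n), gg (fl neg') p y) / p := by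
    rw [e1]
    field_simp
    ring
  rw [e7, abs_div, abs_of_pos hp0, div_le_iff₀ hp0]
  refine (abs_add_le _ _).trans ?_
  have e8 : (ε * (v n - u n) * w + K * (Real.log p / p ^ 2)) * p =
      (ε * w) * (p * (v n - u n)) + K * w := by
    rw [hw]
    field_simp
  rw [e8]
  exact add_le_add h6 h3

/-- a crude summable majorant -/
lemma tail_bound : ∃ C : ℝ, 0 < C ∧ ∀ S : Finset ℕ, ∑ p ∈ S, Real.log p / (p : ℝ) ^ 2 ≤ C := by
  have hs : Summable (fun n : ℕ => 2 * (1 / (n : ℝ) ^ (3 / 2 : ℝ))) :=
    (Real.summable_one_div_nat_rpow.2 (by norm_num)).mul_left 2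
  have hle : ∀ n : ℕ, Real.log n / (n : ℝ) ^ 2 ≤ 2 * (1 / (n : ℝ) ^ (3 / 2 : ℝ)) := by
    intro n
    rcases Nat.eq_zero_or_pos n with rfl | hn
    · simp
    · have hn0 : (0 : ℝ) < n := by exact_mod_cast hn
      have h1 : Real.log n ≤ (n : ℝ) ^ (1 / 2 : ℝ) / (1 / 2) :=
        Real.log_le_rpow_div hn0.le (by norm_num)
      have h2 : (n : ℝ) ^ 2 = (n : ℝ) ^ (1 / 2 : ℝ) * (n : ℝ) ^ (3 / 2 : ℝ) := by
        rw [← Real.rpow_add hn0]
        norm_num
      rw [h2]
      have h3 : (0 : ℝ) < (n : ℝ) ^ (1 / 2 : ℝ) := Real.rpow_pos_of_pos hn0 _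
      have h4 : (0 : ℝ) < (n : ℝ) ^ (3 / 2 : ℝ) := Real.rpow_pos_of_pos hn0 _
      rw [div_le_iff₀ (by positivity)]
      calc Real.log n ≤ (n : ℝ) ^ (1 / 2 : ℝ) / (1 / 2) := h1
        _ = 2 * (1 / (n : ℝ) ^ (3 / 2 : ℝ)) * ((n : ℝ) ^ (1 / 2 : ℝ) * (n : ℝ) ^ (3 / 2 : ℝ)) := by
            field_simp
  have hnn : ∀ n : ℕ, 0 ≤ 2 * (1 / (n : ℝ) ^ (3 / 2 : ℝ)) := fun n => by positivity
  refine ⟨(∑' n : ℕ, 2 * (1 / (n : ℝ) ^ (3 / 2 : ℝ))) + 1, by
    have : 0 ≤ ∑' n : ℕ, 2 * (1 / (n : ℝ) ^ (3 / 2 : ℝ)) := tsum_nonneg hnn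
    linarith, fun S => ?_⟩
  have h1 := (Finset.sum_le_sum fun n (_ : n ∈ S) => hle n).trans
    (hs.sum_le_tsum S fun n _ => hnn n)
  linarith

/-- shrinking windows -/
lemma mean_shrink {c : ℝ} (hc : 0 < c) {u v : ℕ → ℝ}
    (hu : Tendsto u atTop (𝓝 c)) (hv : Tendsto v atTop (𝓝 c)) (huv : ∀ n, u n < v n)
    (hw : Tendsto (fun n : ℕ => (v n - u n) * Real.log n) atTop atTop) :
    Tendsto (fun n : ℕ => (∫ τ in (u n)..(v n), (M (Real.exp τ) n : ℝ)) /
      ((v n - u n) * Real.log n)) atTop
      (𝓝 (Real.exp Real.eulerMascheroniConstant / c)) := by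
  set G := Real.exp Real.eulerMascheroniConstant with hG
  have hG0 : 0 < G := Real.exp_pos _
  obtain ⟨K, hK, hone⟩ := one_prime hc hu hv huv
  obtain ⟨C, hC, htail⟩ := tail_bound
  have hmr := Pool.Agent.H305R2.mertens_ratio
  set L : ℕ → ℝ := fun n => ∑ p ∈ (Finset.Icc 1 n).filter Nat.Prime, Real.log p / p with hL
  -- it is enough to compare with the Mertens sum
  have key : Tendsto (fun n : ℕ => (∫ τ in (u n)..(v n), (M (Real.exp τ) n : ℝ)) /
      ((v n - u n) * Real.log n) - G / c * (L n / Real.log n)) atTop (𝓝 0) := by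
    rw [Metric.tendsto_atTop]
    intro δ hδ
    set ε := δ / 4 with hε
    have hε0 : 0 < ε := by positivity
    obtain ⟨P, hP⟩ := eventually_atTop.1 (hone ε hε0)
    -- constants
    set B := (P : ℝ) * (1 + G / c) with hB
    have hB0 : 0 ≤ B := by positivity
    have hl0 : ∀ᶠ n : ℕ in atTop, 1 ≤ Real.log n := log_nat_tendsto.eventually_ge_atTop 1
    have hl1 : ∀ᶠ n : ℕ in atTop, (B + 1) / ε ≤ Real.log n :=
      log_nat_tendsto.eventually_ge_atTop _
    have hl2 : ∀ᶠ n : ℕ in atTop, K * C / ε ≤ (v n - u n) * Real.log n :=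
      hw.eventually_ge_atTop _
    have hl3 : ∀ᶠ n : ℕ in atTop, L n / Real.log n < 5 / 4 :=
      hmr.eventually (gt_mem_nhds (by norm_num))
    have hall := hl0.and (hl1.and (hl2.and hl3))
    obtain ⟨N, hN⟩ := eventually_atTop.1 hall
    refine ⟨N, fun n hn => ?_⟩
    obtain ⟨a0, a1, a2, a3⟩ := hN n hn
    have hlog0 : 0 < Real.log n := by linarith
    have hd : 0 < v n - u n := by linarith [huv n]
    set d := v n - u n with hdd
    rw [Real.dist_eq, sub_zero, mean_M (huv n).le]
    set S := (Finset.Icc 1 n).filter Nat.Prime with hS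
    have hterm : ∀ p ∈ S, |(∫ τ in Set.Ioc (u n) (v n), ind p τ) - d * (G / c) * (Real.log p / p)| ≤
        (if p < P then d * (1 + G / c) else 0) + (ε * d * (Real.log p / p) +
          K * (Real.log p / p ^ 2)) := by
      intro p hp
      rw [hS, Finset.mem_filter, Finset.mem_Icc] at hp
      have hp1 : (1 : ℝ) ≤ p := by exact_mod_cast hp.1.1
      have hlp : 0 ≤ Real.log p := Real.log_nonneg hp1
      have hlp1 : Real.log p / p ≤ 1 := by
        rw [div_le_one (by linarith)]
        have := Real.log_le_sub_one_of_pos (show (0 : ℝ) < p by linarith)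
        linarith
      have hnn1 : 0 ≤ Real.log p / p := by positivity
      have hnn2 : 0 ≤ K * (Real.log p / (p : ℝ) ^ 2) := by positivity
      have hGc : 0 < G / c := by positivity
      split_ifs with hlt
      · have b1 : 0 ≤ ∫ τ in Set.Ioc (u n) (v n), ind p τ :=
          setIntegral_nonneg measurableSet_Ioc fun t _ => ind_nonneg _ _
        have b2 : ∫ τ in Set.Ioc (u n) (v n), ind p τ ≤ d := by
          calc ∫ τ in Set.Ioc (u n) (v n), ind p τ ≤ ∫ τ in Set.Ioc (u n) (v n), (1 : ℝ) :=
                setIntegral_mono_on (integrableOn_ind p _ _) (integrableOn_const (by simp))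
                  measurableSet_Ioc fun t _ => ind_le_one _ _
            _ = d := by
                rw [setIntegral_const, smul_eq_mul, mul_one, Real.volume_real_Ioc_of_le (huv n).le]
        have b3 : 0 ≤ d * (G / c) * (Real.log p / p) := by positivity
        have b4 : d * (G / c) * (Real.log p / p) ≤ d * (G / c) * 1 :=
          mul_le_mul_of_nonneg_left hlp1 (by positivity)
        have b5 : 0 ≤ ε * d * (Real.log p / p) := by positivity
        rw [abs_le]
        constructor
        · nlinarith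
        · nlinarith
      · rw [zero_add]
        exact hP p (not_lt.1 hlt) n hp.1.2
    have hsum : |(∑ p ∈ S, ∫ τ in Set.Ioc (u n) (v n), ind p τ) - d * (G / c) * L n| ≤
        B * d + (ε * d * L n + K * C) := by
      have e1 : (∑ p ∈ S, ∫ τ in Set.Ioc (u n) (v n), ind p τ) - d * (G / c) * L n =
          ∑ p ∈ S, ((∫ τ in Set.Ioc (u n) (v n), ind p τ) - d * (G / c) * (Real.log p / p)) := by
        rw [Finset.sum_sub_distrib, ← Finset.mul_sum]
      rw [e1]
      refine (Finset.abs_sum_le_sum_abs _ _).trans ((Finset.sum_le_sum hterm).trans ?_)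
      rw [Finset.sum_add_distrib, Finset.sum_add_distrib, ← Finset.mul_sum, ← Finset.mul_sum]
      refine add_le_add ?_ (add_le_add le_rfl (mul_le_mul_of_nonneg_left (htail S) hK.le))
      rw [← Finset.sum_filter, Finset.sum_const, nsmul_eq_mul]
      have hcard : ((S.filter fun p => p < P).card : ℝ) ≤ P := by
        have : (S.filter fun p => p < P).card ≤ (Finset.range P).card := by
          refine Finset.card_le_card fun p hp => ?_
          rw [Finset.mem_filter] at hp
          exact Finset.mem_range.2 hp.2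
        rw [Finset.card_range] at this
        exact_mod_cast this
      have hGc : 0 < G / c := by positivity
      calc ((S.filter fun p => p < P).card : ℝ) * (d * (1 + G / c)) ≤
            P * (d * (1 + G / c)) := mul_le_mul_of_nonneg_right hcard (by positivity)
        _ = B * d := by rw [hB]; ring
    have e2 : (∑ p ∈ S, ∫ τ in Set.Ioc (u n) (v n), ind p τ) / (d * Real.log n) -
        G / c * (L n / Real.log n) =
        ((∑ p ∈ S, ∫ τ in Set.Ioc (u n) (v n), ind p τ) - d * (G / c) * L n) /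
          (d * Real.log n) := by
      field_simp
    have hdl : 0 < d * Real.log n := by positivity
    rw [e2, abs_div, abs_of_pos hdl, div_lt_iff₀ hdl]
    refine hsum.trans_lt ?_
    rw [div_le_iff₀ hε0] at a1 a2
    rw [div_lt_iff₀ hlog0] at a3
    have c1 : B * d ≤ ε * (d * Real.log n) := by
      have : B ≤ Real.log n * ε := by linarith
      nlinarith
    have c2 : ε * d * L n ≤ ε * d * (5 / 4 * Real.log n) :=
      mul_le_mul_of_nonneg_left a3.le (by positivity)
    have c3 : δ = 4 * ε := by rw [hε]; ring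
    rw [c3]
    nlinarith
  have h2 := key.add (hmr.const_mul (G / c))
  simp only [zero_add, mul_one] at h2
  refine h2.congr fun n => ?_
  ring

/-- The Wagstaff law near the base two. -/
theorem result :
    (∀ n : ℕ, M 2 n =
      ((Finset.range (n + 1)).filter (fun p => p.Prime ∧ (2 ^ p - 1).Prime)).card) ∧
    (∀ c : ℝ, 0 < c → ∀ u v : ℕ → ℝ, Tendsto u atTop (𝓝 c) → Tendsto v atTop (𝓝 c) →
      (∀ p, u p < v p) → Tendsto (fun p : ℕ => (p : ℝ) * (v p - u p)) atTop atTop →
      Tendsto (fun p : ℕ =>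
        (volume {τ : ℝ | τ ∈ Set.Ioc (u p) (v p) ∧ (W (Real.exp τ) p).Prime}).toReal /
          (v p - u p) * (p / Real.log p)) atTop
        (𝓝 (Real.exp Real.eulerMascheroniConstant / c))) ∧
    (∀ c : ℝ, 0 < c → ∀ u v : ℕ → ℝ, Tendsto u atTop (𝓝 c) → Tendsto v atTop (𝓝 c) →
      (∀ n, u n < v n) → Tendsto (fun n : ℕ => (v n - u n) * Real.log n) atTop atTop →
      Tendsto (fun n : ℕ => (∫ τ in (u n)..(v n), (M (Real.exp τ) n : ℝ)) /
        ((v n - u n) * Real.log n)) atTop
        (𝓝 (Real.exp Real.eulerMascheroniConstant / c))) ∧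
    (∀ s t : ℝ, 0 < s → s < t →
      Tendsto (fun n : ℕ => (∫ τ in s..t, (M (Real.exp τ) n : ℝ)) / Real.log n) atTop
        (𝓝 (Real.exp Real.eulerMascheroniConstant * Real.log (t / s)))) :=
  ⟨M_two, fun _ hc _ _ hu hv huv hw => local_law hc hu hv huv hw,
    fun _ hc _ _ hu hv huv hw => mean_shrink hc hu hv huv hw,
    fun _ _ hs hst => mean_fixed hs hst⟩

end Pool.Agent.Results.MP_9b2bac_nt.LocalBases
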