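import Pool.Agent.H145R2.MD.Mers

/-!
Either only finitely many Mersenne numbers are prime, or the sequences
`W_m = re ((x + y √d) ^ 2 ^ m)` have infinitely many composite terms: for `d = 3` and `d = 6` and
all nonzero `x`, `y`, and for every `d ≥ 1` for `d` or for both `3 d` and `6 d`.
-/

open Pool.Agent.H145R2.MD

/-- Only finitely many Mersenne primes, or many composite terms in all sequences of
Lucas-Lehmer type. -/
theorem Pool.Agent.Results.MP_9b2bac_nt.LucasLehmerDichotomy.result :
    {q : ℕ | (2 ^ q - 1).Prime}.Finite ∨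
      (ManyComposite 3 ∧ ManyComposite 6 ∧
        ∀ d : ℕ, 0 < d → ManyComposite d ∨ (ManyComposite (3 * d) ∧ ManyComposite (6 * d))) := by
  by_cases h : {q : ℕ | (2 ^ q - 1).Prime}.Finite
  · exact Or.inl h
  · exact Or.inr (main h)
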