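import Mathlib
import Pool.Agent.H305R2.AE2

set_option autoImplicit false

/-!
# A metric form of the Lenstra-Pomerance-Wagstaff law

For real `α > 1`, `β > 0` and a prime `p`, let `W α β p` be the `p`-rough part (the product, with
multiplicity, of the prime factors larger than `p`) of the largest integer below `β α ^ p`.
For `α = 2`, `β = 1` this is the Mersenne number `2 ^ p - 1` itself, because all of its prime
factors exceed `p`.  We prove that for almost every pair `(α, β)` the number `M α β n` of primes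
`p ≤ n` with `W α β p` prime satisfies `M α β n / log n → e^γ / log α`, which is the law
conjectured for Mersenne numbers at `(2, 1)`.
-/

namespace Pool.Agent.Results.MP_9b2bac_nt.MetricLaw

open Filter Topology MeasureTheory

/-- The product, with multiplicity, of the prime factors of `m` that are larger than `p`. -/
def roughPart (p m : ℕ) : ℕ := (m.primeFactorsList.filter (fun r => p < r)).prod

/-- The `p`-rough part of the largest integer that is smaller than `β * α ^ p`. -/
noncomputable def W (α β : ℝ) (p : ℕ) : ℕ := roughPart p (⌈β * α ^ p⌉₊ - 1)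

/-- The number of primes `p ≤ n` for which `W α β p` is prime. -/
noncomputable def M (α β : ℝ) (n : ℕ) : ℕ :=
  ((Finset.range (n + 1)).filter (fun p => p.Prime ∧ (W α β p).Prime)).card

lemma lt_of_dvd_mersenne {p q : ℕ} (hp : p.Prime) (hq : q.Prime) (h : q ∣ 2 ^ p - 1) : p < q := by
  have : Fact q.Prime := ⟨hq⟩
  have h1 : ((2 ^ p - 1 : ℕ) : ZMod q) = 0 := (ZMod.natCast_eq_zero_iff _ _).mpr h
  rw [Nat.cast_sub Nat.one_le_two_pow] at h1
  push_cast at h1
  have h2 : (2 : ZMod q) ^ p = 1 := sub_eq_zero.mp h1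
  have h3 : (2 : ZMod q) ≠ 1 := by
    intro h4
    have h5 : (1 : ZMod q) = 0 := by
      calc (1 : ZMod q) = 2 - 1 := by ring
        _ = 0 := by rw [h4, sub_self]
    exact one_ne_zero h5
  have : Fact p.Prime := ⟨hp⟩
  have h4 : orderOf (2 : ZMod q) = p := orderOf_eq_prime h2 h3
  have h5 : (2 : ZMod q) ≠ 0 := by
    intro h6
    rw [h6, zero_pow hp.ne_zero] at h2
    exact zero_ne_one h2
  have h6 : (2 : ZMod q) ^ (q - 1) = 1 := ZMod.pow_card_sub_one_eq_one h5
  have h7 : p ∣ q - 1 := by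
    rw [← h4]
    exact orderOf_dvd_of_pow_eq_one h6
  have h8 : 0 < q - 1 := Nat.sub_pos_of_lt hq.one_lt
  have h9 := Nat.le_of_dvd h8 h7
  omega

lemma W_two_one {p : ℕ} (hp : p.Prime) : W 2 1 p = 2 ^ p - 1 := by
  unfold W
  have h1 : ⌈(1 : ℝ) * 2 ^ p⌉₊ = 2 ^ p := by
    rw [one_mul]
    have : (2 : ℝ) ^ p = ((2 ^ p : ℕ) : ℝ) := by push_cast; rfl
    rw [this, Nat.ceil_natCast]
  rw [h1]
  unfold roughPart
  have h2 : (2 ^ p - 1 : ℕ).primeFactorsList.filter (fun r => p < r) = (2 ^ p - 1 : ℕ).primeFactorsList := by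
    rw [List.filter_eq_self]
    intro r hr
    have h3 := Nat.prime_of_mem_primeFactorsList hr
    have h4 := Nat.dvd_of_mem_primeFactorsList hr
    exact decide_eq_true (lt_of_dvd_mersenne hp h3 h4)
  rw [h2]
  refine Nat.prod_primeFactorsList ?_
  have : 2 ≤ 2 ^ p := by
    calc 2 = 2 ^ 1 := by norm_num
      _ ≤ 2 ^ p := Nat.pow_le_pow_right (by norm_num) hp.one_lt.le
  omega

lemma M_two_one (n : ℕ) :
    M 2 1 n = ((Finset.range (n + 1)).filter (fun p => p.Prime ∧ (2 ^ p - 1).Prime)).card := by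
  unfold M
  congr 1
  refine Finset.filter_congr fun p _ => ?_
  constructor
  · rintro ⟨h1, h2⟩
    rw [W_two_one h1] at h2
    exact ⟨h1, h2⟩
  · rintro ⟨h1, h2⟩
    rw [W_two_one h1]
    exact ⟨h1, h2⟩

lemma M_eq_CC {α β : ℝ} (hα : 0 < α) (hβ : 0 < β) (n : ℕ) :
    (M α β n : ℝ) = Pool.Agent.H305R2.CC (Real.log α) (Real.log β) n := by
  unfold M Pool.Agent.H305R2.CC
  have e : ∀ p : ℕ, Pool.Agent.H305R2.ff p (Real.log α * p + Real.log β) = if (W α β p).Prime then 1 else 0 := by
    intro p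
    unfold Pool.Agent.H305R2.ff Pool.Agent.H305R2.NN W roughPart Pool.Agent.H305R2.roughPart
    have : Real.exp (Real.log α * p + Real.log β) = β * α ^ p := by
      rw [Real.exp_add, Real.exp_log hβ, mul_comm (Real.log α), Real.exp_nat_mul, Real.exp_log hα, mul_comm]
    rw [this]
  simp only [e]
  rw [← Finset.sum_filter, Finset.sum_const, nsmul_eq_mul, mul_one, Finset.filter_filter]
  congr 2
  ext p
  simp only [Finset.mem_filter, Finset.mem_range, Finset.mem_Icc]
  constructor
  · rintro ⟨h1, h2, h3⟩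
    exact ⟨⟨h2.one_lt.le, by omega⟩, h2, h3⟩
  · rintro ⟨h1, h2, h3⟩
    exact ⟨by omega, h2, h3⟩

/-- The metric law, together with the identification of the point `(2, 1)`. -/
theorem result :
    (∀ n : ℕ, M 2 1 n = ((Finset.range (n + 1)).filter (fun p => p.Prime ∧ (2 ^ p - 1).Prime)).card) ∧
    (∀ᵐ z : ℝ × ℝ, 1 < z.1 → 0 < z.2 →
      Tendsto (fun n : ℕ => (M z.1 z.2 n : ℝ) / Real.log (n : ℝ)) atTop
        (𝓝 (Real.exp Real.eulerMascheroniConstant / Real.log z.1))) := by
  refine ⟨M_two_one, ?_⟩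
  have h := Pool.Agent.H305R2.ae_law_log
  rw [ae_iff] at h ⊢
  set B : Set (ℝ × ℝ) := {z : ℝ × ℝ | ¬ (0 < z.1 →
    Tendsto (fun n : ℕ => Pool.Agent.H305R2.CC z.1 z.2 n / Real.log n) atTop
      (𝓝 (Real.exp Real.eulerMascheroniConstant / z.1)))} with hB
  let Φ : ℝ × ℝ → ℝ × ℝ := fun z => (Real.exp z.1, Real.exp z.2)
  have hΦ : Differentiable ℝ Φ := by
    refine Differentiable.prodMk ?_ ?_
    · exact Real.differentiable_exp.comp differentiable_fst
    · exact Real.differentiable_exp.comp differentiable_snd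
  have h1 : volume (Φ '' B) = 0 :=
    addHaar_image_eq_zero_of_differentiableOn_of_addHaar_eq_zero volume hΦ.differentiableOn h
  refine measure_mono_null ?_ h1
  intro z hz
  simp only [Set.mem_ofPred_eq, Classical.not_imp] at hz
  obtain ⟨hz1, hz2, hz3⟩ := hz
  have hz0 : 0 < z.1 := lt_trans one_pos hz1
  refine ⟨(Real.log z.1, Real.log z.2), ?_, ?_⟩
  · simp only [hB, Set.mem_ofPred_eq, Classical.not_imp]
    refine ⟨Real.log_pos hz1, fun hT => hz3 ?_⟩
    exact hT.congr fun n => by rw [M_eq_CC hz0 hz2]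
  · simp only [Φ]
    rw [Real.exp_log hz0, Real.exp_log hz2]

end Pool.Agent.Results.MP_9b2bac_nt.MetricLaw
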